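import Mathlib

open MeasureTheory Filter Topology BoundedContinuousFunction
open scoped ComplexConjugate ENNReal

namespace Pool.Agent.Results.MP_49446c_co.ExpandingSupportsKMF

/-- The Pontryagin dual carries its Borel sigma-algebra. -/
noncomputable instance dualMeasurableSpace (G : Type*) [CommGroup G] [TopologicalSpace G] :
    MeasurableSpace (PontryaginDual G) := borel _

instance dualBorelSpace (G : Type*) [CommGroup G] [TopologicalSpace G] :
    BorelSpace (PontryaginDual G) := ⟨rfl⟩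

/-- A mean: a positive linear functional of mass one on the bounded real functions on `G`. -/
structure Mean (G : Type*) [TopologicalSpace G] where
  toFun : (G →ᵇ ℝ) →ₗ[ℝ] ℝ
  nonneg' : ∀ f : G →ᵇ ℝ, (∀ g, 0 ≤ f g) → 0 ≤ toFun f
  one' : toFun 1 = 1

section Defs

variable {G : Type*} [CommGroup G] [TopologicalSpace G] [DiscreteTopology G]

/-- The translate `g ↦ f (g * h)` of a bounded function. -/
noncomputable def translate (h : G) (f : G →ᵇ ℝ) : G →ᵇ ℝ :=
  f.compContinuous ⟨fun g => g * h, continuous_of_discreteTopology⟩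

/-- The indicator function of a set, as a bounded function. -/
noncomputable def ind (S : Set G) : G →ᵇ ℝ :=
  BoundedContinuousFunction.ofNormedAddCommGroupDiscrete (S.indicator (fun _ => (1 : ℝ))) 1
    (fun g => by
      by_cases h : g ∈ S <;> simp [h])

/-- A mean is invariant when it does not see translations. -/
def Mean.Invariant (m : Mean G) : Prop := ∀ (h : G) (f : G →ᵇ ℝ), m.toFun (translate h f) = m.toFun f

/-- A mean is supported on `S` when it gives mass one to `S`. -/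
def Mean.SupportedOn (m : Mean G) (S : Set G) : Prop := m.toFun (ind S) = 1

/-- The upper Banach density. -/
noncomputable def dStar (A : Set G) : ℝ :=
  sSup {x : ℝ | ∃ m : Mean G, m.Invariant ∧ x = m.toFun (ind A)}

/-- Bohr sets. -/
def IsBohr (B : Set G) : Prop :=
  ∃ (F : Finset (PontryaginDual G)) (ε : ℝ), 0 < ε ∧
    B = {g : G | ∀ χ ∈ F, ‖((χ g : Circle) : ℂ) - 1‖ < ε}

/-- `S` meets every almost Bohr set `B \ E`, where `B` is Bohr and `E` has upper Banach
density zero. -/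
def Expanding (S : Set G) : Prop :=
  ∀ B E : Set G, IsBohr B → dStar E = 0 → (S ∩ (B \ E)).Nonempty

/-- The mean `m` kills `|μ̂|` for every finite continuous (atomless, regular) complex Borel measure
on the dual; the complex measure is written in polar form `φ μ` with `μ` positive and `|φ| ≤ 1`. -/
def Mean.AnnihilatesContinuousMeasures (m : Mean G) : Prop :=
  ∀ (μ : Measure (PontryaginDual G)) [IsFiniteMeasure μ] [μ.Regular], (∀ χ, μ {χ} = 0) →
    ∀ φ : PontryaginDual G → ℂ, Measurable φ → (∀ χ, ‖φ χ‖ ≤ 1) →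
    ∀ f : G →ᵇ ℝ, (∀ g, f g = ‖∫ χ, conj ((χ g : Circle) : ℂ) * φ χ ∂μ‖) → m.toFun f = 0

/-- Massive accumulation at zero of the Bohr compactification. -/
def Mean.MassivelyAccumulates (m : Mean G) : Prop :=
  ∀ B : Set G, IsBohr B → 0 < m.toFun (ind B)

/-- KMF means. -/
def Mean.IsKMF (m : Mean G) : Prop :=
  m.AnnihilatesContinuousMeasures ∧ m.MassivelyAccumulates

end Defs

section Basic

variable {G : Type*} [CommGroup G] [TopologicalSpace G] [DiscreteTopology G]

@[simp] lemma translate_apply (h : G) (f : G →ᵇ ℝ) (g : G) : translate h f g = f (g * h) := rfl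

lemma ind_apply (S : Set G) (g : G) : ind S g = S.indicator (fun _ => (1 : ℝ)) g := rfl

lemma ind_of_mem {S : Set G} {g : G} (h : g ∈ S) : ind S g = 1 := by simp [ind_apply, h]

lemma ind_of_notMem {S : Set G} {g : G} (h : g ∉ S) : ind S g = 0 := by simp [ind_apply, h]

lemma ind_nonneg (S : Set G) (g : G) : 0 ≤ ind S g := by
  by_cases h : g ∈ S <;> simp [ind_apply, h]

lemma ind_le_one (S : Set G) (g : G) : ind S g ≤ 1 := by
  by_cases h : g ∈ S <;> simp [ind_apply, h]

lemma Mean.mono (m : Mean G) {f g : G →ᵇ ℝ} (h : ∀ x, f x ≤ g x) : m.toFun f ≤ m.toFun g := by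
  have := m.nonneg' (g - f) (fun x => by simpa using h x)
  rw [map_sub] at this
  linarith

lemma Mean.le_of_le (m : Mean G) {f : G →ᵇ ℝ} {c : ℝ} (h : ∀ x, f x ≤ c) : m.toFun f ≤ c := by
  have := m.mono (f := f) (g := c • 1) (fun x => by simpa using h x)
  rw [map_smul, m.one'] at this
  simpa using this

lemma Mean.le_of_ge (m : Mean G) {f : G →ᵇ ℝ} {c : ℝ} (h : ∀ x, c ≤ f x) : c ≤ m.toFun f := by
  have := m.mono (f := c • 1) (g := f) (fun x => by simpa using h x)
  rw [map_smul, m.one'] at this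
  simpa using this

lemma Mean.mem_Icc (m : Mean G) (f : G →ᵇ ℝ) : m.toFun f ∈ Set.Icc (-‖f‖) ‖f‖ :=
  ⟨m.le_of_ge fun x => (abs_le.mp (f.norm_coe_le_norm x)).1,
    m.le_of_le fun x => (abs_le.mp (f.norm_coe_le_norm x)).2⟩

end Basic

section Dual

variable {G : Type*} [CommGroup G] [TopologicalSpace G] [DiscreteTopology G]

/-- basic neighbourhoods in the dual -/
lemma exists_basic (χ : PontryaginDual G) (U : Set (PontryaginDual G)) (hU : U ∈ 𝓝 χ) :
    ∃ (F : Finset G) (δ : ℝ), 0 < δ ∧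
      ∀ ψ : PontryaginDual G, (∀ k ∈ F, ‖((ψ k : Circle) : ℂ) - ((χ k : Circle) : ℂ)‖ < δ) → ψ ∈ U := by
  have hind : IsInducing (fun ψ : PontryaginDual G => (fun g => ((ψ g : Circle) : ℂ))) := by
    have h1 : IsInducing (fun ψ : PontryaginDual G =>
        (ContinuousMonoidHom.toContinuousMap ψ : C(G, Circle))) :=
      ContinuousMonoidHom.isInducing_toContinuousMap G Circle
    have h2 : IsInducing (fun f : C(G, Circle) => (f : G → Circle)) :=
      ContinuousMap.isHomeomorph_coe.isInducing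
    have h3 : IsInducing (fun f : G → Circle => fun g => ((f g : Circle) : ℂ)) :=
      IsInducing.piMap (f := fun _ : G => fun z : Circle => (z : ℂ)) (fun _ => IsInducing.subtypeVal)
    exact (h3.comp h2).comp h1
  rw [hind.nhds_eq_comap, Filter.mem_comap] at hU
  obtain ⟨V, hV, hVU⟩ := hU
  rw [nhds_pi, Filter.mem_pi] at hV
  obtain ⟨I, hI, t, ht, htV⟩ := hV
  have hδ : ∀ i, ∃ δ > 0, Metric.ball ((χ i : Circle) : ℂ) δ ⊆ t i := fun i =>
    Metric.mem_nhds_iff.mp (ht i)
  choose δ hδ0 hδt using hδ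
  classical
  have key : ∀ J : Finset G, ∃ d : ℝ, 0 < d ∧ ∀ i ∈ J, d ≤ δ i := by
    intro J
    induction J using Finset.induction_on with
    | empty => exact ⟨1, one_pos, by simp⟩
    | insert a s ha ih =>
      obtain ⟨d, hd, h⟩ := ih
      refine ⟨min d (δ a), lt_min hd (hδ0 a), ?_⟩
      intro i hi
      rw [Finset.mem_insert] at hi
      rcases hi with rfl | hi
      · exact min_le_right _ _
      · exact (min_le_left _ _).trans (h i hi)
  obtain ⟨d, hd, h⟩ := key hI.toFinset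
  refine ⟨hI.toFinset, d, hd, ?_⟩
  intro ψ hψ
  apply hVU
  apply htV
  intro i hi
  apply hδt
  have hi' : i ∈ hI.toFinset := by simpa using hi
  rw [Metric.mem_ball, dist_eq_norm]
  exact (hψ i hi').trans_le (h i hi')

lemma continuous_eval (k : G) : Continuous (fun ψ : PontryaginDual G => ((ψ k : Circle) : ℂ)) := by
  have : Continuous (fun ψ : PontryaginDual G => (ψ k : Circle)) :=
    continuous_eval_const (F := ContinuousMonoidHom G Circle) k
  exact continuous_subtype_val.comp this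

/-- Uniform smallness of the measure of small boxes, for an atomless regular measure. -/
lemma exists_small (μ : Measure (PontryaginDual G)) [IsFiniteMeasure μ] [μ.Regular]
    (hμ : ∀ χ, μ {χ} = 0) (η : ℝ) (hη : 0 < η) :
    ∃ (F : Finset G) (δ : ℝ), 0 < δ ∧ ∀ χ : PontryaginDual G,
      μ.real {ψ | ∀ k ∈ F, ‖((ψ k : Circle) : ℂ) - ((χ k : Circle) : ℂ)‖ ≤ δ} ≤ η := by
  classical
  have main : ∃ (F : Finset G) (δ : ℝ), 0 < δ ∧ ∀ χ ∈ (Set.univ : Set (PontryaginDual G)),
      μ.real {ψ | ∀ k ∈ F, ‖((ψ k : Circle) : ℂ) - ((χ k : Circle) : ℂ)‖ ≤ δ} ≤ η := by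
    refine isCompact_univ.induction_on (p := fun K : Set (PontryaginDual G) =>
      ∃ (F : Finset G) (δ : ℝ), 0 < δ ∧ ∀ χ ∈ K,
      μ.real {ψ | ∀ k ∈ F, ‖((ψ k : Circle) : ℂ) - ((χ k : Circle) : ℂ)‖ ≤ δ} ≤ η) ?_ ?_ ?_ ?_
    · exact ⟨∅, 1, one_pos, by simp⟩
    · rintro s t hst ⟨F, δ, hδ, h⟩
      exact ⟨F, δ, hδ, fun χ hχ => h χ (hst hχ)⟩
    · rintro s t ⟨F1, δ1, hδ1, h1⟩ ⟨F2, δ2, hδ2, h2⟩
      refine ⟨F1 ∪ F2, min δ1 δ2, lt_min hδ1 hδ2, ?_⟩
      intro χ hχ
      rcases hχ with hχ | hχ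
      · refine le_trans (measureReal_mono ?_) (h1 χ hχ)
        intro ψ hψ k hk
        exact (hψ k (Finset.mem_union_left _ hk)).trans (min_le_left _ _)
      · refine le_trans (measureReal_mono ?_) (h2 χ hχ)
        intro ψ hψ k hk
        exact (hψ k (Finset.mem_union_right _ hk)).trans (min_le_right _ _)
    · intro χ₀ _
      have h0 : μ {χ₀} < ENNReal.ofReal η := by
        rw [hμ]
        exact ENNReal.ofReal_pos.mpr hη
      obtain ⟨U, hU, hUo, hUμ⟩ := Set.exists_isOpen_lt_of_lt {χ₀} _ h0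
      obtain ⟨F, δ, hδ, hF⟩ := exists_basic χ₀ U (hUo.mem_nhds (hU rfl))
      refine ⟨{χ | ∀ k ∈ F, ‖((χ k : Circle) : ℂ) - ((χ₀ k : Circle) : ℂ)‖ < δ / 2}, ?_, F, δ / 3,
        by positivity, ?_⟩
      · rw [nhdsWithin_univ]
        have : {χ : PontryaginDual G | ∀ k ∈ F, ‖((χ k : Circle) : ℂ) - ((χ₀ k : Circle) : ℂ)‖ < δ / 2}
            = ⋂ k ∈ F, {χ : PontryaginDual G |
                ‖((χ k : Circle) : ℂ) - ((χ₀ k : Circle) : ℂ)‖ < δ / 2} := by
          ext χ; simp
        rw [this]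
        refine (Finset.iInter_mem_sets F).mpr fun k _ => ?_
        refine (isOpen_lt ?_ continuous_const).mem_nhds ?_
        · exact ((continuous_eval k).sub continuous_const).norm
        · simp [hδ]
      · intro χ hχ
        have hsub : {ψ : PontryaginDual G | ∀ k ∈ F,
            ‖((ψ k : Circle) : ℂ) - ((χ k : Circle) : ℂ)‖ ≤ δ / 3} ⊆ U := by
          intro ψ hψ
          apply hF
          intro k hk
          have e1 := hψ k hk
          have e2 := hχ k hk
          calc ‖((ψ k : Circle) : ℂ) - ((χ₀ k : Circle) : ℂ)‖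
              = ‖(((ψ k : Circle) : ℂ) - ((χ k : Circle) : ℂ)) +
                (((χ k : Circle) : ℂ) - ((χ₀ k : Circle) : ℂ))‖ := by congr 1; ring
            _ ≤ _ := norm_add_le _ _
            _ < δ := by linarith
        have h3 : μ.real {ψ : PontryaginDual G | ∀ k ∈ F,
            ‖((ψ k : Circle) : ℂ) - ((χ k : Circle) : ℂ)‖ ≤ δ / 3} ≤ μ.real U :=
          measureReal_mono hsub
        refine h3.trans ?_
        exact ENNReal.toReal_le_of_le_ofReal hη.le hUμ.le
  obtain ⟨F, δ, hδ, h⟩ := main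
  exact ⟨F, δ, hδ, fun χ => h χ (Set.mem_univ χ)⟩

end Dual

section Dirichlet

/-- norm of a truncated geometric sum with unimodular ratio -/
lemma norm_geom_le (z : ℂ) (hz : ‖z‖ = 1) (N : ℕ) : ‖∑ i ∈ Finset.range N, z ^ i‖ ≤ N := by
  calc ‖∑ i ∈ Finset.range N, z ^ i‖ ≤ ∑ i ∈ Finset.range N, ‖z ^ i‖ := norm_sum_le _ _
    _ = N := by simp [hz]

lemma norm_geom_le' (z : ℂ) (hz : ‖z‖ = 1) (N : ℕ) (δ : ℝ) (hδ : 0 < δ) (h : δ < ‖z - 1‖) :
    ‖∑ i ∈ Finset.range N, z ^ i‖ ≤ 2 / δ := by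
  have h1 : z ≠ 1 := by
    rintro rfl
    simp at h
    linarith
  rw [geom_sum_eq h1, norm_div]
  have h2 : ‖z ^ N - 1‖ ≤ 2 := by
    calc ‖z ^ N - 1‖ ≤ ‖z ^ N‖ + ‖(1 : ℂ)‖ := norm_sub_le _ _
      _ = 2 := by simp [hz]; norm_num
  have h3 : 0 < ‖z - 1‖ := hδ.trans h
  rw [div_le_div_iff₀ h3 hδ]
  nlinarith

end Dirichlet

section Averaging

variable {G : Type*} [CommGroup G] [TopologicalSpace G] [DiscreteTopology G]

/-- the Fourier transform -/
noncomputable def ft (μ : Measure (PontryaginDual G)) (φ : PontryaginDual G → ℂ) (g : G) : ℂ :=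
  ∫ χ, conj ((χ g : Circle) : ℂ) * φ χ ∂μ

/-- the group element `∏ k ^ j k` -/
noncomputable def gEl (F : Finset G) (j : F → ℕ) : G := ∏ k : F, (k : G) ^ (j k)

lemma geom_prod [DecidableEq G] (F : Finset G) (N : ℕ) (χ ψ : PontryaginDual G) :
    ∑ j ∈ Fintype.piFinset (fun _ : F => Finset.range N),
      conj ((χ (gEl F j) : Circle) : ℂ) * ((ψ (gEl F j) : Circle) : ℂ)
    = ∏ k : F, ∑ i ∈ Finset.range N,
      (conj ((χ (k : G) : Circle) : ℂ) * ((ψ (k : G) : Circle) : ℂ)) ^ i := by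
  rw [Finset.prod_univ_sum]
  refine Finset.sum_congr rfl fun j _ => ?_
  have h1 : ∀ χ : PontryaginDual G, ((χ (gEl F j) : Circle) : ℂ) =
      ∏ k : F, ((χ (k : G) : Circle) : ℂ) ^ (j k) := by
    intro χ
    rw [gEl, map_prod]
    have h2 : ∀ z : F → Circle, ((∏ k : F, z k : Circle) : ℂ) = ∏ k : F, ((z k : Circle) : ℂ) :=
      fun z => map_prod Circle.coeHom z _
    rw [h2]
    refine Finset.prod_congr rfl fun k _ => ?_
    rw [map_pow, Circle.coe_pow]
  rw [h1, h1, map_prod, ← Finset.prod_mul_distrib]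
  refine Finset.prod_congr rfl fun k _ => ?_
  rw [map_pow, mul_pow]

lemma norm_conj_mul_sub (a b : Circle) : ‖conj (a : ℂ) * (b : ℂ) - 1‖ = ‖(b : ℂ) - (a : ℂ)‖ := by
  have h1 : conj (a : ℂ) * (a : ℂ) = 1 := by
    rw [← Circle.coe_inv_eq_conj]
    simp
  have h2 : conj (a : ℂ) * (b : ℂ) - 1 = conj (a : ℂ) * ((b : ℂ) - (a : ℂ)) := by
    rw [mul_sub, h1]
  rw [h2, norm_mul]
  simp [Circle.norm_coe]

lemma norm_conj_mul (a b : Circle) : ‖conj (a : ℂ) * (b : ℂ)‖ = 1 := by
  simp [Circle.norm_coe]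

/-- the box -/
def box (F : Finset G) (δ : ℝ) (χ : PontryaginDual G) : Set (PontryaginDual G) :=
  {ψ | ∀ k ∈ F, ‖((ψ k : Circle) : ℂ) - ((χ k : Circle) : ℂ)‖ ≤ δ}

lemma measurableSet_box (F : Finset G) (δ : ℝ) (χ : PontryaginDual G) :
    MeasurableSet (box F δ χ) := by
  have : box F δ χ = ⋂ k ∈ F, {ψ : PontryaginDual G |
      ‖((ψ k : Circle) : ℂ) - ((χ k : Circle) : ℂ)‖ ≤ δ} := by
    ext ψ; simp [box]
  rw [this]
  refine IsClosed.measurableSet ?_
  refine isClosed_biInter fun k _ => ?_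
  exact isClosed_le ((continuous_eval k).sub continuous_const).norm continuous_const

lemma norm_kernel_le [DecidableEq G] (F : Finset G) (N : ℕ) (hN : 0 < N) (δ : ℝ) (hδ : 0 < δ)
    (χ ψ : PontryaginDual G) :
    ‖∑ j ∈ Fintype.piFinset (fun _ : F => Finset.range N),
      conj ((χ (gEl F j) : Circle) : ℂ) * ((ψ (gEl F j) : Circle) : ℂ)‖
    ≤ (N : ℝ) ^ F.card * ((box F δ χ).indicator (fun _ => (1 : ℝ)) ψ + 2 / (N * δ)) := by
  have hN' : (0 : ℝ) < N := by exact_mod_cast hN
  rw [geom_prod, norm_prod]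
  by_cases h : ψ ∈ box F δ χ
  · rw [Set.indicator_of_mem h]
    calc ∏ k : F, ‖∑ i ∈ Finset.range N,
        (conj ((χ (k : G) : Circle) : ℂ) * ((ψ (k : G) : Circle) : ℂ)) ^ i‖
        ≤ ∏ _k : F, (N : ℝ) := by
          refine Finset.prod_le_prod (fun _ _ => norm_nonneg _) fun k _ => ?_
          exact norm_geom_le _ (norm_conj_mul _ _) N
      _ = (N : ℝ) ^ F.card * 1 := by simp
      _ ≤ _ := by
          gcongr
          have : 0 ≤ 2 / ((N : ℝ) * δ) := by positivity
          linarith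
  · rw [Set.indicator_of_notMem h]
    simp only [box, Set.mem_ofPred_eq] at h
    push Not at h
    obtain ⟨k₀, hk₀, hlt⟩ := h
    calc ∏ k : F, ‖∑ i ∈ Finset.range N,
        (conj ((χ (k : G) : Circle) : ℂ) * ((ψ (k : G) : Circle) : ℂ)) ^ i‖
        ≤ ∏ k : F, ((N : ℝ) * (if k = ⟨k₀, hk₀⟩ then 2 / (N * δ) else 1)) := by
          refine Finset.prod_le_prod (fun _ _ => norm_nonneg _) fun k _ => ?_
          by_cases hk : k = ⟨k₀, hk₀⟩
          · rw [if_pos hk]
            subst hk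
            have h1 := norm_geom_le' (conj ((χ k₀ : Circle) : ℂ) * ((ψ k₀ : Circle) : ℂ))
              (norm_conj_mul _ _) N δ hδ (by rw [norm_conj_mul_sub]; exact hlt)
            refine h1.trans (le_of_eq ?_)
            field_simp
          · rw [if_neg hk, mul_one]
            exact norm_geom_le _ (norm_conj_mul _ _) N
      _ = (N : ℝ) ^ F.card * (2 / (N * δ)) := by
          rw [Finset.prod_mul_distrib]
          simp
      _ = _ := by ring

lemma integrable_aux (μ : Measure (PontryaginDual G)) [IsFiniteMeasure μ]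
    (φ : PontryaginDual G → ℂ) (hφ : Measurable φ) (hφ1 : ∀ χ, ‖φ χ‖ ≤ 1) (g : G) :
    Integrable (fun χ : PontryaginDual G => conj ((χ g : Circle) : ℂ) * φ χ) μ := by
  refine Integrable.of_bound (C := 1) ?_ ?_
  · refine Measurable.aestronglyMeasurable ?_
    refine Measurable.mul ?_ hφ
    exact (Complex.continuous_conj.comp (continuous_eval g)).measurable
  · refine ae_of_all _ fun χ => ?_
    rw [norm_mul]
    simpa [Circle.norm_coe] using hφ1 χ

lemma integrable_aux' (μ : Measure (PontryaginDual G)) [IsFiniteMeasure μ]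
    (φ : PontryaginDual G → ℂ) (hφ : Measurable φ) (hφ1 : ∀ χ, ‖φ χ‖ ≤ 1) (g : G) :
    Integrable (fun χ : PontryaginDual G => ((χ g : Circle) : ℂ) * conj (φ χ)) μ := by
  refine Integrable.of_bound (C := 1) ?_ ?_
  · refine Measurable.aestronglyMeasurable ?_
    refine Measurable.mul ?_ ?_
    · exact (continuous_eval g).measurable
    · exact Complex.continuous_conj.measurable.comp hφ
  · refine ae_of_all _ fun χ => ?_
    rw [norm_mul]
    simpa [Circle.norm_coe] using hφ1 χ

lemma conj_ft (μ : Measure (PontryaginDual G)) (φ : PontryaginDual G → ℂ) (g : G) :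
    conj (ft μ φ g) = ∫ ψ, ((ψ g : Circle) : ℂ) * conj (φ ψ) ∂μ := by
  rw [ft, ← integral_conj]
  congr 1
  ext χ
  simp

lemma sum_sq_le [DecidableEq G] (μ : Measure (PontryaginDual G)) [IsFiniteMeasure μ]
    (φ : PontryaginDual G → ℂ) (hφ : Measurable φ) (hφ1 : ∀ χ, ‖φ χ‖ ≤ 1)
    (F : Finset G) (N : ℕ) (hN : 0 < N) (δ η : ℝ) (hδ : 0 < δ)
    (hF : ∀ χ : PontryaginDual G, μ.real (box F δ χ) ≤ η) (g : G) :
    ∑ j ∈ Fintype.piFinset (fun _ : F => Finset.range N), ‖ft μ φ (g * gEl F j)‖ ^ 2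
      ≤ (N : ℝ) ^ F.card * (η + 2 / (N * δ) * μ.real Set.univ) * μ.real Set.univ := by
  set J := Fintype.piFinset (fun _ : F => Finset.range N) with hJ
  set M := μ.real Set.univ with hM
  set C : ℝ := (N : ℝ) ^ F.card * (η + 2 / (N * δ) * M) with hC
  have hN' : (0 : ℝ) < N := by exact_mod_cast hN
  -- inner bound
  have inner : ∀ χ : PontryaginDual G,
      ‖∑ j ∈ J, conj ((χ (g * gEl F j) : Circle) : ℂ) * conj (ft μ φ (g * gEl F j))‖ ≤ C := by
    intro χ
    have e1 : ∑ j ∈ J, conj ((χ (g * gEl F j) : Circle) : ℂ) * conj (ft μ φ (g * gEl F j))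
        = ∫ ψ, ∑ j ∈ J, conj ((χ (g * gEl F j) : Circle) : ℂ) *
          (((ψ (g * gEl F j) : Circle) : ℂ) * conj (φ ψ)) ∂μ := by
      rw [integral_finsetSum]
      · refine Finset.sum_congr rfl fun j _ => ?_
        rw [conj_ft, integral_const_mul]
      · intro j _
        exact (integrable_aux' μ φ hφ hφ1 _).const_mul _
    rw [e1]
    have e2 : ∀ ψ : PontryaginDual G, ‖∑ j ∈ J, conj ((χ (g * gEl F j) : Circle) : ℂ) *
          (((ψ (g * gEl F j) : Circle) : ℂ) * conj (φ ψ))‖ ≤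
          (N : ℝ) ^ F.card * ((box F δ χ).indicator (fun _ => (1 : ℝ)) ψ + 2 / (N * δ)) := by
      intro ψ
      have e3 : ∑ j ∈ J, conj ((χ (g * gEl F j) : Circle) : ℂ) *
          (((ψ (g * gEl F j) : Circle) : ℂ) * conj (φ ψ)) =
          (conj ((χ g : Circle) : ℂ) * ((ψ g : Circle) : ℂ) * conj (φ ψ)) *
          ∑ j ∈ J, conj ((χ (gEl F j) : Circle) : ℂ) * ((ψ (gEl F j) : Circle) : ℂ) := by
        rw [Finset.mul_sum]
        refine Finset.sum_congr rfl fun j _ => ?_
        rw [map_mul, map_mul, Circle.coe_mul, Circle.coe_mul, map_mul]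
        ring
      rw [e3, norm_mul, norm_mul, norm_conj_mul, one_mul]
      have e4 : ‖conj (φ ψ)‖ ≤ 1 := by simpa using hφ1 ψ
      calc ‖conj (φ ψ)‖ * ‖∑ j ∈ J, conj ((χ (gEl F j) : Circle) : ℂ) *
            ((ψ (gEl F j) : Circle) : ℂ)‖
          ≤ 1 * ‖∑ j ∈ J, conj ((χ (gEl F j) : Circle) : ℂ) *
            ((ψ (gEl F j) : Circle) : ℂ)‖ := by gcongr
        _ ≤ _ := by rw [one_mul]; exact norm_kernel_le F N hN δ hδ χ ψ
    have hint : Integrable (fun ψ => (N : ℝ) ^ F.card *
        ((box F δ χ).indicator (fun _ => (1 : ℝ)) ψ + 2 / (N * δ))) μ := by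
      refine Integrable.const_mul ?_ _
      refine Integrable.add ?_ (integrable_const _)
      exact (integrable_const (1 : ℝ)).indicator (measurableSet_box F δ χ)
    refine (norm_integral_le_of_norm_le hint (ae_of_all _ e2)).trans ?_
    rw [integral_const_mul, integral_add, integral_indicator (measurableSet_box F δ χ)]
    · rw [hC]
      gcongr
      · simp only [integral_const, smul_eq_mul, mul_one]
        simpa using hF χ
      · simp only [integral_const, smul_eq_mul]
        rw [mul_comm]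
    · exact (integrable_const (1 : ℝ)).indicator (measurableSet_box F δ χ)
    · exact integrable_const _
  have outer : ∑ j ∈ J, ft μ φ (g * gEl F j) * conj (ft μ φ (g * gEl F j)) =
      ∫ χ, φ χ * ∑ j ∈ J, conj ((χ (g * gEl F j) : Circle) : ℂ) *
        conj (ft μ φ (g * gEl F j)) ∂μ := by
    have e1 : ∀ χ : PontryaginDual G, φ χ * ∑ j ∈ J, conj ((χ (g * gEl F j) : Circle) : ℂ) *
        conj (ft μ φ (g * gEl F j)) = ∑ j ∈ J, (conj ((χ (g * gEl F j) : Circle) : ℂ) * φ χ) *
        conj (ft μ φ (g * gEl F j)) := by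
      intro χ
      rw [Finset.mul_sum]
      refine Finset.sum_congr rfl fun j _ => ?_
      ring
    simp_rw [e1]
    rw [integral_finsetSum]
    · refine Finset.sum_congr rfl fun j _ => ?_
      rw [integral_mul_const]
      rfl
    · intro j _
      exact (integrable_aux μ φ hφ hφ1 _).mul_const _
  have h1 : ‖∑ j ∈ J, ft μ φ (g * gEl F j) * conj (ft μ φ (g * gEl F j))‖ ≤ C * M := by
    rw [outer]
    refine norm_integral_le_of_norm_le_const (ae_of_all _ fun χ => ?_)
    rw [norm_mul]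
    calc ‖φ χ‖ * ‖∑ j ∈ J, conj ((χ (g * gEl F j) : Circle) : ℂ) * conj (ft μ φ (g * gEl F j))‖
        ≤ 1 * C := by
          gcongr
          · exact hφ1 χ
          · exact inner χ
      _ = C := one_mul _
  have h2 : ∑ j ∈ J, ft μ φ (g * gEl F j) * conj (ft μ φ (g * gEl F j)) =
      ((∑ j ∈ J, ‖ft μ φ (g * gEl F j)‖ ^ 2 : ℝ) : ℂ) := by
    push_cast
    refine Finset.sum_congr rfl fun j _ => ?_
    rw [Complex.mul_conj']
  rw [h2, Complex.norm_real, Real.norm_of_nonneg] at h1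
  · exact h1
  · exact Finset.sum_nonneg fun j _ => by positivity

end Averaging

section KeyLemma

variable {G : Type*} [CommGroup G] [TopologicalSpace G] [DiscreteTopology G]

lemma Mean.sq_eq_zero (m : Mean G) (hm : m.Invariant) (μ : Measure (PontryaginDual G))
    [IsFiniteMeasure μ] [μ.Regular] (hμ : ∀ χ, μ {χ} = 0)
    (φ : PontryaginDual G → ℂ) (hφ : Measurable φ) (hφ1 : ∀ χ, ‖φ χ‖ ≤ 1)
    (f : G →ᵇ ℝ) (hf : ∀ g, f g = ‖ft μ φ g‖) : m.toFun (f * f) ≤ 0 := by
  classical
  refine le_of_forall_pos_le_add fun ε hε => ?_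
  rw [zero_add]
  set M := μ.real Set.univ with hM
  have hM0 : 0 ≤ M := measureReal_nonneg
  set η : ℝ := ε / (2 * (M + 1)) with hη
  have hη0 : 0 < η := by positivity
  obtain ⟨F, δ, hδ, hF⟩ := exists_small μ hμ η hη0
  obtain ⟨N, hN⟩ := exists_nat_gt (2 * M / (δ * η))
  have hN0 : 0 < N := by
    rcases Nat.eq_zero_or_pos N with h | h
    · subst h
      have : 0 ≤ 2 * M / (δ * η) := by positivity
      simp at hN
      linarith
    · exact h
  have hN' : (0 : ℝ) < N := by exact_mod_cast hN0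
  have hb : 2 / (N * δ) * M ≤ η := by
    rw [div_lt_iff₀ (by positivity)] at hN
    rw [div_mul_eq_mul_div, div_le_iff₀ (by positivity)]
    nlinarith
  set J := Fintype.piFinset (fun _ : F => Finset.range N) with hJ
  have hcard : (J.card : ℝ) = (N : ℝ) ^ F.card := by
    rw [hJ, Fintype.card_piFinset]
    simp
  have h1 : ∑ j ∈ J, m.toFun (translate (gEl F j) (f * f)) = (N : ℝ) ^ F.card * m.toFun (f * f) := by
    rw [Finset.sum_congr rfl fun j _ => hm (gEl F j) (f * f)]
    rw [Finset.sum_const, nsmul_eq_mul, hcard]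
  have h2 : m.toFun (∑ j ∈ J, translate (gEl F j) (f * f)) ≤
      (N : ℝ) ^ F.card * (η + 2 / (N * δ) * M) * M := by
    refine m.le_of_le fun g => ?_
    have := sum_sq_le μ φ hφ hφ1 F N hN0 δ η hδ hF g
    refine le_trans (le_of_eq ?_) this
    rw [BoundedContinuousFunction.coe_sum, Finset.sum_apply]
    refine Finset.sum_congr rfl fun j _ => ?_
    rw [translate_apply, BoundedContinuousFunction.mul_apply, hf]
    ring
  rw [map_sum, h1] at h2
  have h3 : m.toFun (f * f) ≤ (η + 2 / (N * δ) * M) * M := by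
    have h4 : (0 : ℝ) < (N : ℝ) ^ F.card := by positivity
    have h5 : (N : ℝ) ^ F.card * m.toFun (f * f) ≤
        (N : ℝ) ^ F.card * ((η + 2 / (N * δ) * M) * M) := by
      rw [← mul_assoc]; exact h2
    exact le_of_mul_le_mul_left h5 h4
  calc m.toFun (f * f) ≤ (η + 2 / (N * δ) * M) * M := h3
    _ ≤ (η + η) * (M + 1) := by
        gcongr
        linarith
    _ = ε := by
        rw [hη]
        field_simp
        ring

lemma Mean.eq_zero (m : Mean G) (hm : m.Invariant) (μ : Measure (PontryaginDual G))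
    [IsFiniteMeasure μ] [μ.Regular] (hμ : ∀ χ, μ {χ} = 0)
    (φ : PontryaginDual G → ℂ) (hφ : Measurable φ) (hφ1 : ∀ χ, ‖φ χ‖ ≤ 1)
    (f : G →ᵇ ℝ) (hf : ∀ g, f g = ‖ft μ φ g‖) : m.toFun f = 0 := by
  apply le_antisymm
  · refine le_of_forall_pos_le_add fun ε hε => ?_
    rw [zero_add]
    have h0 := m.sq_eq_zero hm μ hμ φ hφ hφ1 f hf
    have h1 : m.toFun f ≤ m.toFun (ε • 1 + ε⁻¹ • (f * f)) := by
      refine m.mono fun g => ?_
      have hfg : 0 ≤ f g := by rw [hf]; exact norm_nonneg _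
      simp only [BoundedContinuousFunction.coe_add, BoundedContinuousFunction.coe_smul,
        Pi.add_apply, BoundedContinuousFunction.coe_one, Pi.one_apply, smul_eq_mul, mul_one,
        BoundedContinuousFunction.coe_mul, Pi.mul_apply]
      rcases le_total (f g) ε with h | h
      · have : 0 ≤ ε⁻¹ * (f g * f g) := by positivity
        linarith
      · have : f g ≤ ε⁻¹ * (f g * f g) := by
          rw [inv_mul_eq_div, le_div_iff₀ hε]
          nlinarith
        linarith
    rw [map_add, map_smul, map_smul, m.one'] at h1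
    simp only [smul_eq_mul, mul_one] at h1
    have h2 : ε⁻¹ * m.toFun (f * f) ≤ 0 := mul_nonpos_of_nonneg_of_nonpos (by positivity) h0
    linarith
  · exact m.nonneg' f fun g => by rw [hf]; exact norm_nonneg _

end KeyLemma

section Limit

variable {G : Type*} [CommGroup G] [TopologicalSpace G] [DiscreteTopology G]

/-- the mean `f ↦ m (f 1_A) / m 1_A` -/
noncomputable def Mean.cond (m : Mean G) (A : Set G) (hA : 0 < m.toFun (ind A)) : Mean G where
  toFun := (m.toFun (ind A))⁻¹ • (m.toFun ∘ₗ LinearMap.mulRight ℝ (ind A))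
  nonneg' f hf := by
    simp only [LinearMap.smul_apply, LinearMap.comp_apply, LinearMap.mulRight_apply, smul_eq_mul]
    refine mul_nonneg (inv_nonneg.mpr hA.le) (m.nonneg' _ fun g => ?_)
    rw [BoundedContinuousFunction.mul_apply]
    exact mul_nonneg (hf g) (ind_nonneg A g)
  one' := by
    simp only [LinearMap.smul_apply, LinearMap.comp_apply, LinearMap.mulRight_apply, smul_eq_mul,
      one_mul]
    exact inv_mul_cancel₀ hA.ne'

lemma Mean.cond_apply (m : Mean G) (A : Set G) (hA : 0 < m.toFun (ind A)) (f : G →ᵇ ℝ) :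
    (m.cond A hA).toFun f = (m.toFun (ind A))⁻¹ * m.toFun (f * ind A) := rfl

lemma Mean.cond_ind (m : Mean G) (A B : Set G) (hA : 0 < m.toFun (ind A)) (h : A ⊆ B) :
    (m.cond A hA).toFun (ind B) = 1 := by
  have : ind B * ind A = ind A := by
    ext g
    rw [BoundedContinuousFunction.mul_apply]
    by_cases hg : g ∈ A
    · rw [ind_of_mem hg, ind_of_mem (h hg), one_mul]
    · rw [ind_of_notMem hg, mul_zero]
  rw [m.cond_apply, this]
  exact inv_mul_cancel₀ hA.ne'

lemma Mean.cond_zero (m : Mean G) (A : Set G) (hA : 0 < m.toFun (ind A)) (f : G →ᵇ ℝ)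
    (hf : ∀ g, 0 ≤ f g) (h : m.toFun f = 0) : (m.cond A hA).toFun f = 0 := by
  rw [m.cond_apply]
  have h1 : m.toFun (f * ind A) ≤ m.toFun f := m.mono fun g => by
    rw [BoundedContinuousFunction.mul_apply]
    exact mul_le_of_le_one_right (hf g) (ind_le_one A g)
  have h2 : 0 ≤ m.toFun (f * ind A) := m.nonneg' _ fun g => by
    rw [BoundedContinuousFunction.mul_apply]
    exact mul_nonneg (hf g) (ind_nonneg A g)
  have h3 : m.toFun (f * ind A) = 0 := le_antisymm (h ▸ h1) h2
  rw [h3, mul_zero]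

lemma exists_limit {ι : Type*} (U : Ultrafilter ι) (ν : ι → Mean G) :
    ∃ m : Mean G, ∀ f, Tendsto (fun i => (ν i).toFun f) U (𝓝 (m.toFun f)) := by
  have h : ∀ f : G →ᵇ ℝ, ∃ x, Tendsto (fun i => (ν i).toFun f) U (𝓝 x) := by
    intro f
    have hc : IsCompact (Set.Icc (-‖f‖) ‖f‖) := isCompact_Icc
    obtain ⟨x, _, hx⟩ := hc.ultrafilter_le_nhds (U.map (fun i => (ν i).toFun f)) (by
      rw [le_principal_iff]
      exact Filter.mem_map.mpr (Filter.univ_mem' fun i => (ν i).mem_Icc f))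
    exact ⟨x, hx⟩
  choose L hL using h
  refine ⟨⟨⟨⟨L, ?_⟩, ?_⟩, ?_, ?_⟩, hL⟩
  · intro f g
    refine tendsto_nhds_unique (hL (f + g)) ?_
    simpa only [map_add] using (hL f).add (hL g)
  · intro c f
    refine tendsto_nhds_unique (hL (c • f)) ?_
    have h1 := (hL f).const_smul c
    simp only [map_smul, RingHom.id_apply]
    exact h1
  · intro f hf
    exact ge_of_tendsto' (hL f) fun i => (ν i).nonneg' f hf
  · refine tendsto_nhds_unique (hL 1) ?_
    simp only [Mean.one']
    exact tendsto_const_nhds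

/-- the standard basis of Bohr sets -/
def bohr (p : Finset (PontryaginDual G) × ℕ) : Set G :=
  {g : G | ∀ χ ∈ p.1, ‖((χ g : Circle) : ℂ) - 1‖ < 1 / ((p.2 : ℝ) + 1)}

lemma isBohr_bohr (p : Finset (PontryaginDual G) × ℕ) : IsBohr (bohr p) :=
  ⟨p.1, 1 / ((p.2 : ℝ) + 1), by positivity, rfl⟩

lemma bohr_anti {p q : Finset (PontryaginDual G) × ℕ} (h : p ≤ q) : bohr q ⊆ bohr p := by
  intro g hg χ hχ
  refine (hg χ (h.1 hχ)).trans_le ?_
  have : (p.2 : ℝ) ≤ q.2 := by exact_mod_cast h.2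
  gcongr

lemma exists_bohr_subset {B : Set G} (hB : IsBohr B) :
    ∃ p : Finset (PontryaginDual G) × ℕ, bohr p ⊆ B := by
  obtain ⟨F, ε, hε, rfl⟩ := hB
  obtain ⟨n, hn⟩ := exists_nat_one_div_lt hε
  exact ⟨(F, n), fun g hg χ hχ => (hg χ hχ).trans hn⟩

lemma exists_mean {S : Set G} (hS : Expanding S) {B : Set G} (hB : IsBohr B) :
    ∃ m : Mean G, m.Invariant ∧ 0 < m.toFun (ind (S ∩ B)) := by
  by_contra hcon
  push Not at hcon
  have h0 : dStar (S ∩ B) = 0 := by
    have hz : ∀ x ∈ {x : ℝ | ∃ m : Mean G, m.Invariant ∧ x = m.toFun (ind (S ∩ B))}, x = 0 := by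
      rintro x ⟨m, hm, rfl⟩
      exact le_antisymm (hcon m hm) (m.nonneg' _ (ind_nonneg _))
    apply le_antisymm
    · exact Real.sSup_nonpos fun x hx => (hz x hx).le
    · exact Real.sSup_nonneg fun x hx => (hz x hx).ge
  obtain ⟨g, hgS, hgB, hg⟩ := hS B (S ∩ B) hB h0
  exact hg ⟨hgS, hgB⟩

/-- Every expanding subset of a discrete abelian group supports a KMF mean. -/
theorem result {G : Type*} [CommGroup G] [TopologicalSpace G] [DiscreteTopology G]
    (S : Set G) (hS : Expanding S) : ∃ m : Mean G, m.SupportedOn S ∧ m.IsKMF := by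
  classical
  have hm : ∀ p : Finset (PontryaginDual G) × ℕ,
      ∃ m : Mean G, m.Invariant ∧ 0 < m.toFun (ind (S ∩ bohr p)) :=
    fun p => exists_mean hS (isBohr_bohr p)
  choose m hinv hpos using hm
  obtain ⟨n, hn⟩ := exists_limit
    (Ultrafilter.of (atTop : Filter (Finset (PontryaginDual G) × ℕ)))
    (fun p => (m p).cond (S ∩ bohr p) (hpos p))
  have hle : ((Ultrafilter.of (atTop : Filter (Finset (PontryaginDual G) × ℕ)) :
      Filter (Finset (PontryaginDual G) × ℕ))) ≤ atTop := Ultrafilter.of_le _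
  refine ⟨n, ?_, ?_, ?_⟩
  · refine tendsto_nhds_unique (hn (ind S)) ?_
    refine tendsto_const_nhds.congr fun p => ?_
    exact ((m p).cond_ind _ _ (hpos p) Set.inter_subset_left).symm
  · intro μ _ _ hμ φ hφ hφ1 f hf
    refine tendsto_nhds_unique (hn f) ?_
    refine tendsto_const_nhds.congr fun p => ?_
    refine ((m p).cond_zero _ (hpos p) f (fun g => by rw [hf]; exact norm_nonneg _) ?_).symm
    exact (m p).eq_zero (hinv p) μ hμ φ hφ hφ1 f hf
  · intro B hB
    obtain ⟨q, hq⟩ := exists_bohr_subset hB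
    have h1 : n.toFun (ind B) = 1 := by
      refine tendsto_nhds_unique (hn (ind B)) ?_
      refine tendsto_const_nhds.congr' ?_
      filter_upwards [hle (eventually_ge_atTop q)] with p hp
      exact ((m p).cond_ind _ _ (hpos p)
        (Set.inter_subset_right.trans ((bohr_anti hp).trans hq))).symm
    rw [h1]
    exact one_pos

end Limit

end Pool.Agent.Results.MP_49446c_co.ExpandingSupportsKMF
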